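import Pool.Agent.MPce8478.Literal

set_option autoImplicit false

open Set Metric

namespace Pool.Agent.Results.MP_ce8478_an.InnerFactorMaximal

open MPce8478

/-- (1) If `A = B ∘ C` on the unit disc, `B` and `C` are analytic, `‖B‖_∞ ≤ 1`, `C(𝔻) ⊆ 𝔻` and
`A` is a maximal Blaschke product, then `C` is a maximal Blaschke product.
(2) Without a bound on `‖B‖_∞` this fails for trivial reasons. -/
theorem result :
    (∀ A B C : ℂ → ℂ, DifferentiableOn ℂ B (ball 0 1) → (∀ z ∈ ball (0 : ℂ) 1, ‖B z‖ ≤ 1) →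
      DifferentiableOn ℂ C (ball 0 1) → MapsTo C (ball 0 1) (ball 0 1) →
      (∀ z ∈ ball (0 : ℂ) 1, A z = B (C z)) → IsMaximalBP A → IsMaximalBP C) ∧
    ∃ B C : ℂ → ℂ, HInf B ∧ HInf C ∧ MapsTo C (ball 0 1) (ball 0 1) ∧
      IsMaximalBP (fun z => B (C z)) ∧ ¬ IsMaximalBP C := by
  refine ⟨fun A B C hB hB1 hC mC hA hmax => MPce8478.main hB hB1 hC mC hA hmax,
    fun z => 2 * z, fun z => z / 2, ⟨by fun_prop, 2, fun z hz => ?_⟩,
    ⟨by fun_prop, 1, fun z hz => ?_⟩, fun z hz => ?_, ?_, not_isMaximalBP_half⟩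
  · have := mem_ball_zero_iff.1 hz
    rw [norm_mul, Complex.norm_ofNat]
    linarith
  · have := mem_ball_zero_iff.1 hz
    rw [norm_div, Complex.norm_ofNat]
    linarith [norm_nonneg z]
  · have := mem_ball_zero_iff.1 hz
    rw [mem_ball_zero_iff, norm_div, Complex.norm_ofNat]
    linarith [norm_nonneg z]
  · have h : (fun z : ℂ => (2 : ℂ) * (z / 2)) = fun z => z := by
      funext z; ring
    simp only
    rw [h]
    exact isMaximalBP_id

end Pool.Agent.Results.MP_ce8478_an.InnerFactorMaximal
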